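import Mathlib

set_option autoImplicit false

/-!
# Symmetric designs: replication numbers, intersections of blocks
-/

open Finset

namespace Q123.VC

variable {v k lam : ℕ}

/-- `B` lists the `v` blocks of a symmetric `(v, k, lam)`-design on the points `Fin v`. -/
def IsSym (v k lam : ℕ) (B : Fin v → Finset (Fin v)) : Prop :=
  (∀ i, (B i).card = k) ∧ ∀ x y, x ≠ y → (univ.filter fun i => x ∈ B i ∧ y ∈ B i).card = lam

/-- number of blocks containing a point -/
def rep (B : Fin v → Finset (Fin v)) (x : Fin v) : ℕ := (univ.filter fun i => x ∈ B i).card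

lemma sum_rep (B : Fin v → Finset (Fin v)) : ∑ x, rep B x = ∑ i, (B i).card := by
  unfold rep
  simp only [card_filter]
  rw [sum_comm]
  refine sum_congr rfl fun i _ => ?_
  rw [← card_filter, filter_mem_eq_inter, univ_inter]

lemma pair_count {B : Fin v → Finset (Fin v)} (h : IsSym v k lam B) (x : Fin v) :
    rep B x + lam * (v - 1) = rep B x * k := by
  have h1 : ∑ y, (univ.filter fun i => x ∈ B i ∧ y ∈ B i).card = rep B x * k := by
    simp only [card_filter]
    rw [sum_comm]
    have : ∀ i : Fin v, (∑ y : Fin v, if x ∈ B i ∧ y ∈ B i then 1 else 0)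
        = if x ∈ B i then k else 0 := by
      intro i
      by_cases hx : x ∈ B i
      · simp only [hx, true_and, if_true]
        rw [← card_filter, filter_mem_eq_inter, univ_inter, h.1 i]
      · simp [hx]
    rw [sum_congr rfl fun i _ => this i, ← sum_filter, sum_const, smul_eq_mul]
    rfl
  have h2 : ∑ y, (univ.filter fun i => x ∈ B i ∧ y ∈ B i).card = rep B x + lam * (v - 1) := by
    rw [← add_sum_erase univ _ (mem_univ x)]
    congr 1
    · unfold rep
      simp
    · rw [sum_congr rfl fun y hy => h.2 x y (ne_of_mem_erase hy).symm, sum_const, smul_eq_mul,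
        card_erase_of_mem (mem_univ x), card_univ, Fintype.card_fin, mul_comm]
  rw [← h2, h1]

lemma rep_eq {B : Fin v → Finset (Fin v)} (h : IsSym v k lam B) (hk : 2 ≤ k)
    (x : Fin v) : rep B x = k := by
  have hv : 1 ≤ v := by have := x.pos; omega
  -- all replication numbers are equal
  have heq : ∀ y, rep B y = rep B x := by
    intro y
    have h1 := pair_count h x
    have h2 := pair_count h y
    obtain ⟨m, rfl⟩ : ∃ m, k = m + 2 := ⟨k - 2, by omega⟩
    have e1 : lam * (v - 1) = rep B x * (m + 1) := by
      have : rep B x * (m + 2) = rep B x + rep B x * (m + 1) := by ring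
      omega
    have e2 : lam * (v - 1) = rep B y * (m + 1) := by
      have : rep B y * (m + 2) = rep B y + rep B y * (m + 1) := by ring
      omega
    have := e1.symm.trans e2
    exact (Nat.eq_of_mul_eq_mul_right (by omega) this).symm
  have hs := sum_rep B
  rw [sum_congr rfl fun y _ => heq y, sum_congr rfl fun i _ => h.1 i, sum_const, sum_const,
    card_univ, Fintype.card_fin, smul_eq_mul, smul_eq_mul] at hs
  exact Nat.eq_of_mul_eq_mul_left (by omega) hs

lemma fund {B : Fin v → Finset (Fin v)} (h : IsSym v k lam B) (hk : 2 ≤ k)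
    (x : Fin v) : k + lam * (v - 1) = k * k := by
  have := pair_count h x
  rw [rep_eq h hk x] at this
  exact this

/-- two distinct blocks meet in `lam` points -/
lemma inter_card {B : Fin v → Finset (Fin v)} (h : IsSym v k lam B) (hk : 2 ≤ k)
    {i j : Fin v} (hij : i ≠ j) : (B i ∩ B j).card = lam := by
  have hv : 1 ≤ v := by have := i.pos; omega
  have h1 : ∑ j, (B i ∩ B j).card = k * k := by
    have : ∀ j, (B i ∩ B j).card = ∑ x ∈ B i, if x ∈ B j then 1 else 0 := by
      intro j
      rw [← card_filter, filter_mem_eq_inter]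
    rw [sum_congr rfl fun j _ => this j, sum_comm]
    have : ∀ x ∈ B i, (∑ j : Fin v, if x ∈ B j then 1 else 0) = k := by
      intro x _
      rw [← card_filter]
      exact rep_eq h hk x
    rw [sum_congr rfl this, sum_const, h.1 i, smul_eq_mul]
  have h2 : ∑ j, (B i ∩ B j).card * (B i ∩ B j).card = k * k + k * (k - 1) * lam := by
    have : ∀ j, (B i ∩ B j).card * (B i ∩ B j).card =
        ∑ x ∈ B i, ∑ y ∈ B i, if x ∈ B j ∧ y ∈ B j then 1 else 0 := by
      intro j
      have e : (B i ∩ B j).card = ∑ x ∈ B i, if x ∈ B j then 1 else 0 := by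
        rw [← card_filter, filter_mem_eq_inter]
      rw [e, sum_mul_sum]
      refine sum_congr rfl fun x _ => sum_congr rfl fun y _ => ?_
      by_cases hx : x ∈ B j <;> by_cases hy : y ∈ B j <;> simp [hx, hy]
    rw [sum_congr rfl fun j _ => this j, sum_comm]
    have : ∀ x ∈ B i, (∑ j : Fin v, ∑ y ∈ B i, if x ∈ B j ∧ y ∈ B j then 1 else 0)
        = k + (k - 1) * lam := by
      intro x hx
      rw [sum_comm, ← add_sum_erase _ _ hx]
      congr 1
      · simp only [and_self]
        rw [← card_filter]
        exact rep_eq h hk x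
      · rw [sum_congr rfl fun y hy => by
          rw [← card_filter, h.2 x y (ne_of_mem_erase hy).symm], sum_const, card_erase_of_mem hx,
          h.1 i, smul_eq_mul]
    rw [sum_congr rfl this, sum_const, h.1 i, smul_eq_mul]
    ring
  have hf := fund h hk i
  -- variance
  have h3 : ∑ j ∈ univ.erase i, (((B i ∩ B j).card : ℤ) - lam) ^ 2 = 0 := by
    have a1 : ∑ j ∈ univ.erase i, ((B i ∩ B j).card : ℤ) = (k : ℤ) * k - k := by
      have := add_sum_erase univ (fun j => (B i ∩ B j).card) (mem_univ i)
      simp only [inter_self, h.1 i] at this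
      rw [h1] at this
      have h' : ((k + ∑ j ∈ univ.erase i, (B i ∩ B j).card : ℕ) : ℤ) = ((k * k : ℕ) : ℤ) := by
        exact_mod_cast this
      push_cast at h'
      linarith
    have a2 : ∑ j ∈ univ.erase i, (((B i ∩ B j).card : ℤ) * (B i ∩ B j).card)
        = (k : ℤ) * (k - 1) * lam := by
      have := add_sum_erase univ (fun j => (B i ∩ B j).card * (B i ∩ B j).card) (mem_univ i)
      simp only [inter_self, h.1 i] at this
      rw [h2] at this
      have h' : ((k * k + ∑ j ∈ univ.erase i, (B i ∩ B j).card * (B i ∩ B j).card : ℕ) : ℤ)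
          = ((k * k + k * (k - 1) * lam : ℕ) : ℤ) := by
        exact_mod_cast this
      push_cast [Nat.cast_sub (show 1 ≤ k by omega)] at h'
      linarith
    have a3 : ((univ.erase i).card : ℤ) = (v : ℤ) - 1 := by
      rw [card_erase_of_mem (mem_univ i), card_univ, Fintype.card_fin]
      push_cast [Nat.cast_sub hv]
      ring
    have hf' : (k : ℤ) + lam * (v - 1) = k * k := by
      have : ((k + lam * (v - 1) : ℕ) : ℤ) = ((k * k : ℕ) : ℤ) := by exact_mod_cast hf
      push_cast [Nat.cast_sub hv] at this
      linarith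
    have : ∀ j ∈ univ.erase i, (((B i ∩ B j).card : ℤ) - lam) ^ 2
        = ((B i ∩ B j).card : ℤ) * (B i ∩ B j).card - 2 * lam * (B i ∩ B j).card
          + (lam : ℤ) * lam := by
      intro j _; ring
    rw [sum_congr rfl this, sum_add_distrib, sum_sub_distrib, ← mul_sum, a1, a2, sum_const,
      nsmul_eq_mul, a3]
    linear_combination (lam : ℤ) * hf'
  have h4 := (sum_eq_zero_iff_of_nonneg (fun j _ => sq_nonneg _)).1 h3 j
    (mem_erase.2 ⟨hij.symm, mem_univ _⟩)
  have h5 : ((B i ∩ B j).card : ℤ) = lam := by
    have := pow_eq_zero_iff (n := 2) (by norm_num) |>.1 h4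
    linarith
  exact_mod_cast h5

lemma lam_le {B : Fin v → Finset (Fin v)} (h : IsSym v k lam B) (hk : 2 ≤ k)
    (hkv : k < v) : lam + 1 ≤ k := by
  have hf := fund h hk ⟨0, by omega⟩
  by_contra hcon
  push Not at hcon
  have h1 : k * k ≤ lam * (v - 1) := by
    have : k ≤ v - 1 := by omega
    exact Nat.mul_le_mul (by omega) this
  omega

/-- the symmetric difference of two distinct blocks -/
lemma diff_card {B : Fin v → Finset (Fin v)} (h : IsSym v k lam B) (hk : 2 ≤ k)
    {i j : Fin v} (hij : i ≠ j) :
    (univ.filter fun x => ¬ (x ∈ B i ↔ x ∈ B j)).card = 2 * (k - lam) := by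
  have h1 : (univ.filter fun x => ¬ (x ∈ B i ↔ x ∈ B j)) = (B i \ B j) ∪ (B j \ B i) := by
    ext x
    simp only [mem_filter, mem_univ, true_and, mem_union, mem_sdiff]
    tauto
  have hd : Disjoint (B i \ B j) (B j \ B i) := by
    rw [disjoint_left]
    intro x hx hy
    rw [mem_sdiff] at hx hy
    exact hx.2 hy.1
  have h2 : (B i \ B j).card = k - lam := by
    rw [card_sdiff, inter_comm, inter_card h hk hij, h.1 i]
  have h3 : (B j \ B i).card = k - lam := by
    rw [card_sdiff, inter_comm, inter_card h hk hij.symm, h.1 j]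
  rw [h1, card_union_of_disjoint hd, h2, h3]
  ring

end Q123.VC
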