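import Pool.Agent.Q102.VC.Haussler
import Pool.Agent.Q123.VC.Design

set_option autoImplicit false

/-!
# Symmetric designs of bounded VC dimension
-/

open Finset

namespace Q123.VC

variable {v k lam : ℕ}

/-- `Z` is shattered by the blocks -/
def Shat (B : Fin v → Finset (Fin v)) (Z : Finset (Fin v)) : Prop :=
  ∀ T ⊆ Z, ∃ i, Z ∩ B i = T

theorem order_bound {B : Fin v → Finset (Fin v)} (h : IsSym v k lam B) (hk : 2 ≤ k)
    (hkv : k < v) {D : ℕ} (hD1 : 1 ≤ D) (hD : ∀ Z, Shat B Z → Z.card ≤ D) :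
    ((k - lam : ℕ) : ℝ) ^ D ≤ 2 * (2 * Real.exp 1) ^ D * (v : ℝ) ^ (D - 1) := by
  have hlk := lam_le h hk hkv
  have hij : (⟨0, by omega⟩ : Fin v) ≠ ⟨1, by omega⟩ := by
    intro h
    exact absurd (congrArg Fin.val h) (by norm_num)
  have hsW : 2 * (k - lam) ≤ v := by
    rw [← diff_card h hk hij]
    refine (card_le_univ _).trans ?_
    rw [Fintype.card_fin]
  set n : ℕ := k - lam with hn
  have hn1 : 1 ≤ n := by omega
  have hn0 : (0 : ℝ) < n := by exact_mod_cast hn1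
  have hv0 : (0 : ℝ) < v := by
    have : 0 < v := by omega
    exact_mod_cast this
  have key := Pool.Agent.Q102.VC.haussler_real (univ : Finset (Fin v)) B (univ : Finset (Fin v)) D
    (2 * (n : ℝ)) (by positivity) (by
      rw [card_univ, Fintype.card_fin]
      exact_mod_cast hsW) (by
      intro i _ j _ hij
      rw [diff_card h hk hij]
      push_cast
      exact le_rfl) hD1 (by
      intro Z hZ
      apply hD
      intro T hT
      obtain ⟨i, -, hi⟩ := hZ T hT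
      refine ⟨i, ?_⟩
      rw [← hi, Pool.Agent.Q102.VC.tr, filter_mem_eq_inter])
  rw [card_univ, Fintype.card_fin] at key
  have e1 : 4 * Real.exp 1 * ((v : ℝ) / (2 * (n : ℝ))) = (2 * Real.exp 1) * v / n := by
    field_simp
    ring
  rw [e1, div_pow, mul_pow] at key
  have h2 : (v : ℝ) * (n : ℝ) ^ D ≤ 2 * ((2 * Real.exp 1) ^ D * (v : ℝ) ^ D) := by
    have := mul_le_mul_of_nonneg_right key (pow_nonneg hn0.le D)
    calc (v : ℝ) * (n : ℝ) ^ D
        ≤ 2 * ((2 * Real.exp 1) ^ D * (v : ℝ) ^ D / (n : ℝ) ^ D) * (n : ℝ) ^ D := this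
      _ = 2 * ((2 * Real.exp 1) ^ D * (v : ℝ) ^ D) := by
        field_simp
  obtain ⟨m, rfl⟩ : ∃ m, D = m + 1 := ⟨D - 1, by omega⟩
  rw [Nat.add_sub_cancel]
  have h3 : (v : ℝ) * (n : ℝ) ^ (m + 1) ≤
      (v : ℝ) * (2 * (2 * Real.exp 1) ^ (m + 1) * (v : ℝ) ^ m) := by
    calc (v : ℝ) * (n : ℝ) ^ (m + 1) ≤ 2 * ((2 * Real.exp 1) ^ (m + 1) * (v : ℝ) ^ (m + 1)) := h2
      _ = _ := by ring
  exact le_of_mul_le_mul_left h3 hv0

/-- `λ v ≤ 4 n²` when `2k ≤ v` -/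
lemma lam_mul_le {B : Fin v → Finset (Fin v)} (h : IsSym v k lam B) (hk : 2 ≤ k)
    (hkv : 2 * k ≤ v) : lam * v ≤ 4 * (k - lam) ^ 2 := by
  have hlk := lam_le h hk (by omega)
  have hf := fund h hk ⟨0, by omega⟩
  have h1 : lam * v ≤ k * k := by
    obtain ⟨w, rfl⟩ : ∃ w, v = w + 1 := ⟨v - 1, by omega⟩
    rw [Nat.add_sub_cancel] at hf
    have : lam * (w + 1) = lam * w + lam := by ring
    omega
  have h2 : 2 * lam ≤ k := by
    by_contra hcon
    push Not at hcon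
    have : k * v < 2 * (lam * v) := by
      have : k * v < 2 * lam * v := Nat.mul_lt_mul_of_pos_right hcon (by omega)
      calc k * v < 2 * lam * v := this
        _ = 2 * (lam * v) := by ring
    have h3 : k * (2 * k) ≤ k * v := Nat.mul_le_mul_left _ hkv
    have h4 : k * (2 * k) = 2 * (k * k) := by ring
    omega
  have h3 : k ≤ 2 * (k - lam) := by omega
  calc lam * v ≤ k * k := h1
    _ ≤ (2 * (k - lam)) * (2 * (k - lam)) := Nat.mul_le_mul h3 h3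
    _ = 4 * (k - lam) ^ 2 := by ring

theorem lam_bound {B : Fin v → Finset (Fin v)} (h : IsSym v k lam B) (hk : 2 ≤ k)
    (hkv : 2 * k ≤ v) {D : ℕ} (hD1 : 1 ≤ D) (hD : ∀ Z, Shat B Z → Z.card ≤ D) :
    (lam : ℝ) ^ D * (v : ℝ) ^ 2 ≤ 4 * (16 * Real.exp 1 ^ 2) ^ D * (v : ℝ) ^ D := by
  have h1 := order_bound h hk (by omega) hD1 hD
  have h2 : (lam : ℝ) * v ≤ 4 * ((k - lam : ℕ) : ℝ) ^ 2 := by exact_mod_cast lam_mul_le h hk hkv
  set n : ℕ := k - lam with hn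
  have hv0 : (0 : ℝ) < v := by
    have : 0 < v := by omega
    exact_mod_cast this
  have h3 : ((lam : ℝ) * v) ^ D ≤ (4 * (n : ℝ) ^ 2) ^ D :=
    pow_le_pow_left₀ (by positivity) h2 D
  have h4 : ((n : ℝ) ^ D) ^ 2 ≤ (2 * (2 * Real.exp 1) ^ D * (v : ℝ) ^ (D - 1)) ^ 2 :=
    pow_le_pow_left₀ (by positivity) h1 2
  have h5 : (4 * (n : ℝ) ^ 2) ^ D = 4 ^ D * ((n : ℝ) ^ D) ^ 2 := by
    rw [mul_pow, ← pow_mul, ← pow_mul, mul_comm 2 D]
  have h6 : (v : ℝ) ^ D * ((lam : ℝ) ^ D * (v : ℝ) ^ 2) ≤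
      (v : ℝ) ^ D * (4 * (16 * Real.exp 1 ^ 2) ^ D * (v : ℝ) ^ D) := by
    obtain ⟨m, rfl⟩ : ∃ m, D = m + 1 := ⟨D - 1, by omega⟩
    rw [Nat.add_sub_cancel] at h4
    calc (v : ℝ) ^ (m + 1) * ((lam : ℝ) ^ (m + 1) * (v : ℝ) ^ 2)
        = ((lam : ℝ) * v) ^ (m + 1) * (v : ℝ) ^ 2 := by rw [mul_pow]; ring
      _ ≤ (4 ^ (m + 1) * ((n : ℝ) ^ (m + 1)) ^ 2) * (v : ℝ) ^ 2 := by
        rw [← h5]
        exact mul_le_mul_of_nonneg_right h3 (by positivity)
      _ ≤ (4 ^ (m + 1) * (2 * (2 * Real.exp 1) ^ (m + 1) * (v : ℝ) ^ m) ^ 2) * (v : ℝ) ^ 2 := by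
        apply mul_le_mul_of_nonneg_right _ (by positivity)
        exact mul_le_mul_of_nonneg_left h4 (by positivity)
      _ = (v : ℝ) ^ (m + 1) * (4 * (16 * Real.exp 1 ^ 2) ^ (m + 1) * (v : ℝ) ^ (m + 1)) := by
        have : (16 * Real.exp 1 ^ 2 : ℝ) ^ (m + 1) =
            4 ^ (m + 1) * ((2 * Real.exp 1) ^ (m + 1)) ^ 2 := by
          rw [← pow_mul, mul_comm (m + 1) 2, pow_mul, ← mul_pow]
          congr 1
          ring
        rw [this]
        ring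
  exact le_of_mul_le_mul_left h6 (by positivity)

theorem lam_bound_two {B : Fin v → Finset (Fin v)} (h : IsSym v k lam B) (hk : 2 ≤ k)
    (hkv : 2 * k ≤ v) (hD : ∀ Z, Shat B Z → Z.card ≤ 2) : lam ≤ 236 := by
  have h1 := lam_bound h hk hkv (by norm_num) hD
  have hv0 : (0 : ℝ) < v := by
    have : 0 < v := by omega
    exact_mod_cast this
  have h2 : (lam : ℝ) ^ 2 ≤ 4 * (16 * Real.exp 1 ^ 2) ^ 2 :=
    le_of_mul_le_mul_right h1 (by positivity)
  have h3 : (lam : ℝ) < 237 := by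
    have he := Real.exp_one_lt_d9
    have he0 := Real.exp_pos 1
    have h4 : (lam : ℝ) ^ 2 ≤ (32 * Real.exp 1 ^ 2) ^ 2 := by
      calc (lam : ℝ) ^ 2 ≤ 4 * (16 * Real.exp 1 ^ 2) ^ 2 := h2
        _ = _ := by ring
    have h5 := abs_le_of_sq_le_sq' h4 (by positivity)
    have h6 : Real.exp 1 ^ 2 < 2.7182818286 ^ 2 := by
      apply pow_lt_pow_left₀ he he0.le (by norm_num)
    have := h5.2
    have h7 : (2.7182818286 : ℝ) ^ 2 < 7.4 := by norm_num
    linarith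
  have : lam < 237 := by exact_mod_cast h3
  omega

end Q123.VC
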