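import Pool.Agent.Q123.VC.Bounds

set_option autoImplicit false

/-!
# Points and hyperplanes of `PG(D, q)`: the parameters and the VC dimension
-/

open Finset LinearAlgebra.Projectivization

namespace Q123.VC

section Lin

variable {F : Type*} [Field F] {m : ℕ}

/-- linear functionals through independent vectors -/
lemma exists_dot {ι : Type*} {x : ι → Fin m → F} (hx : LinearIndependent F x) (c : ι → F) :
    ∃ w : Fin m → F, ∀ i, x i ⬝ᵥ w = c i := by
  obtain ⟨g, hg⟩ := LinearMap.exists_extend ((Module.Basis.span hx).constr F c)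
  refine ⟨fun j => g (Pi.single j 1), fun i => ?_⟩
  have h1 : g (x i) = c i := by
    have h2 := LinearMap.congr_fun hg ((Module.Basis.span hx) i)
    rw [Module.Basis.constr_basis, LinearMap.comp_apply, Submodule.subtype_apply,
      Module.Basis.span_apply] at h2
    exact h2
  rw [← h1]
  have h3 : x i = ∑ j, x i j • (Pi.single j 1 : Fin m → F) := by
    funext l
    simp [Finset.sum_apply, Pi.single_apply]
  conv_rhs => rw [h3]
  rw [map_sum]
  simp only [map_smul, smul_eq_mul]
  rfl

/-- the subspace orthogonal to a family of vectors -/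
def orth {ι : Type*} (x : ι → Fin m → F) : Submodule F (Fin m → F) where
  carrier := {w | ∀ i, x i ⬝ᵥ w = 0}
  add_mem' := by
    intro a b ha hb i
    rw [dotProduct_add, ha i, hb i, add_zero]
  zero_mem' := by intro i; exact dotProduct_zero _
  smul_mem' := by
    intro c a ha i
    rw [dotProduct_smul, ha i, smul_zero]

lemma finrank_orth {ι : Type*} [Fintype ι] {x : ι → Fin m → F} (hx : LinearIndependent F x) :
    Module.finrank F (orth x) + Fintype.card ι = m := by
  let φ : (Fin m → F) →ₗ[F] (ι → F) :=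
    { toFun := fun w i => x i ⬝ᵥ w
      map_add' := by intro a b; funext i; exact dotProduct_add _ _ _
      map_smul' := by intro c a; funext i; exact dotProduct_smul _ _ _ }
  have h1 := LinearMap.finrank_range_add_finrank_ker φ
  have h2 : LinearMap.range φ = ⊤ := by
    rw [LinearMap.range_eq_top]
    intro c
    obtain ⟨w, hw⟩ := exists_dot hx c
    exact ⟨w, funext hw⟩
  have h3 : LinearMap.ker φ = orth x := by
    ext w
    rw [LinearMap.mem_ker]
    constructor
    · intro h i
      exact congrFun h i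
    · intro h
      funext i
      exact h i
  rw [h2, h3, finrank_top, Module.finrank_fintype_fun_eq_card, Module.finrank_fin_fun] at h1
  omega

end Lin

section Count

variable {F : Type} [Field F] [Finite F] {m : ℕ}

/-- number of projective points in a subspace -/
lemma card_points {V : Type} [AddCommGroup V] [Module F V] (W : Submodule F V) {d : ℕ}
    (hW : Module.finrank F W = d) :
    Nat.card {p : ℙ F V // p.rep ∈ W} = ∑ i ∈ range d, Nat.card F ^ i := by
  rw [← Projectivization.card_of_finrank F W hW]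
  symm
  refine Nat.card_congr (Equiv.ofBijective
    (fun p => ⟨Projectivization.map W.subtype W.injective_subtype p, ?_⟩) ⟨?_, ?_⟩)
  · induction p using Projectivization.ind with
    | h w hw =>
      rw [Projectivization.map_mk]
      obtain ⟨a, ha⟩ := Projectivization.exists_smul_eq_mk_rep F (W.subtype w)
        (by intro h; exact hw (W.injective_subtype (by rw [h, map_zero])))
      rw [← ha]
      exact W.smul_mem _ w.2
  · intro p q hpq
    exact Projectivization.map_injective W.subtype W.injective_subtype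
      (congrArg Subtype.val hpq)
  · rintro ⟨p, hp⟩
    refine ⟨Projectivization.mk F ⟨p.rep, hp⟩ (by
      intro h
      exact p.rep_nonzero (congrArg Subtype.val h)), ?_⟩
    apply Subtype.ext
    change Projectivization.map W.subtype W.injective_subtype (Projectivization.mk F _ _) = p
    rw [Projectivization.map_mk]
    exact p.mk_rep

lemma card_hyper {x : Fin m → F} (hx : x ≠ 0) :
    Nat.card {p : ℙ F (Fin m → F) // x ⬝ᵥ p.rep = 0} = ∑ i ∈ range (m - 1), Nat.card F ^ i := by
  have h1 : LinearIndependent F (fun _ : Unit => x) := by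
    rw [linearIndependent_unique_iff]
    exact hx
  have h2 := finrank_orth h1
  rw [Fintype.card_unit] at h2
  rw [← card_points (orth fun _ : Unit => x) (show _ = m - 1 by omega)]
  refine Nat.card_congr (Equiv.subtypeEquivRight fun p => ?_)
  constructor
  · intro h _
    exact h
  · intro h
    exact h ()

lemma card_pair {p q : ℙ F (Fin m → F)} (hpq : p ≠ q) :
    Nat.card {r : ℙ F (Fin m → F) // p.rep ⬝ᵥ r.rep = 0 ∧ q.rep ⬝ᵥ r.rep = 0} =
      ∑ i ∈ range (m - 2), Nat.card F ^ i := by
  have h1 : LinearIndependent F ![p.rep, q.rep] :=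
    Projectivization.linearIndependent_pair_iff_ne.2 hpq
  have h2 := finrank_orth h1
  rw [Fintype.card_fin] at h2
  rw [← card_points (orth ![p.rep, q.rep]) (show _ = m - 2 by omega)]
  refine Nat.card_congr (Equiv.subtypeEquivRight fun r => ?_)
  constructor
  · rintro ⟨h, h'⟩ i
    fin_cases i
    · exact h
    · exact h'
  · intro h
    exact ⟨h 0, h 1⟩

end Count

section Design

variable {F : Type} [Field F] {m v : ℕ}

open Classical in
/-- the blocks of `PG(m - 1, F)` -/
noncomputable def pg (e : Fin v ≃ ℙ F (Fin m → F)) (i : Fin v) : Finset (Fin v) :=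
  univ.filter fun j => (e i).rep ⬝ᵥ (e j).rep = 0

lemma mem_pg (e : Fin v ≃ ℙ F (Fin m → F)) (i j : Fin v) :
    j ∈ pg e i ↔ (e i).rep ⬝ᵥ (e j).rep = 0 := by
  classical
  unfold pg
  simp

lemma card_filter_equiv (e : Fin v ≃ ℙ F (Fin m → F)) (P : ℙ F (Fin m → F) → Prop)
    (S : Finset (Fin v)) (hS : ∀ i, i ∈ S ↔ P (e i)) : S.card = Nat.card {p // P p} := by
  rw [← Fintype.card_coe, ← Nat.card_eq_fintype_card]
  refine Nat.card_congr ((Equiv.subtypeEquiv e fun i => ?_))
  exact hS i

theorem pg_isSym [Finite F] (e : Fin v ≃ ℙ F (Fin m → F)) :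
    IsSym v (∑ i ∈ range (m - 1), Nat.card F ^ i) (∑ i ∈ range (m - 2), Nat.card F ^ i)
      (pg e) := by
  constructor
  · intro i
    rw [← card_hyper (e i).rep_nonzero]
    exact card_filter_equiv e (fun p => (e i).rep ⬝ᵥ p.rep = 0) _ fun j => mem_pg e i j
  · intro x y hxy
    rw [← card_pair (fun h => hxy (e.injective h))]
    apply card_filter_equiv e (fun r => (e x).rep ⬝ᵥ r.rep = 0 ∧ (e y).rep ⬝ᵥ r.rep = 0)
    intro i
    rw [mem_filter, mem_pg, mem_pg, dotProduct_comm (e i).rep, dotProduct_comm (e i).rep]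
    exact ⟨fun h => h.2, fun h => ⟨mem_univ _, h⟩⟩

/-- shattered sets are independent and lie in a hyperplane -/
theorem pg_shat_le (e : Fin v ≃ ℙ F (Fin m → F)) {Z : Finset (Fin v)} (hZ : Shat (pg e) Z) :
    Z.card + 1 ≤ m := by
  have h1 : LinearIndependent F (fun z : Z => (e z).rep) := by
    rw [linearIndependent_iff_notMem_span]
    intro z hz
    obtain ⟨i, hi⟩ := hZ (Z.erase z) (erase_subset _ _)
    have h2 : ∀ w ∈ Z, (e i).rep ⬝ᵥ (e w).rep = 0 ↔ w ≠ z := by
      intro w hw
      rw [← mem_pg]
      constructor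
      · intro h h'
        have : w ∈ Z.erase (z : Fin v) := by rw [← hi, mem_inter]; exact ⟨hw, h⟩
        exact (mem_erase.1 this).1 h'
      · intro h
        have : w ∈ Z ∩ pg e i := by rw [hi]; exact mem_erase.2 ⟨h, hw⟩
        exact (mem_inter.1 this).2
    have h3 : Submodule.span F ((fun z : Z => (e z).rep) '' (Set.univ \ {z})) ≤
        orth (fun _ : Unit => (e i).rep) := by
      rw [Submodule.span_le]
      rintro _ ⟨w, hw, rfl⟩ _
      exact (h2 w w.2).2 fun h => hw.2 (Subtype.ext h)
    exact absurd ((h2 z z.2).1 (h3 hz ())) (fun h => h rfl)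
  obtain ⟨i, hi⟩ := hZ Z (Subset.refl Z)
  have h2 := LinearIndependent.fintype_card_le_finrank (R := F)
    (b := fun z : Z => (⟨(e z).rep, by
      intro _
      have : (z : Fin v) ∈ Z ∩ pg e i := by rw [hi]; exact z.2
      exact (mem_pg e i z).1 (mem_inter.1 this).2⟩ : orth (fun _ : Unit => (e i).rep)))
    (by
      rw [← LinearMap.linearIndependent_iff (orth (fun _ : Unit => (e i).rep)).subtype
        (Submodule.ker_subtype _)]
      exact h1)
  have h3 : LinearIndependent F (fun _ : Unit => (e i).rep) := by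
    rw [linearIndependent_unique_iff]
    exact (e i).rep_nonzero
  have h4 := finrank_orth h3
  rw [Fintype.card_unit] at h4
  rw [Fintype.card_coe] at h2
  omega

lemma rep_dot {a b : Fin m → F} (ha : a ≠ 0) (hb : b ≠ 0) :
    (Projectivization.mk F a ha).rep ⬝ᵥ (Projectivization.mk F b hb).rep = 0 ↔ a ⬝ᵥ b = 0 := by
  obtain ⟨s, hs⟩ := Projectivization.exists_smul_eq_mk_rep F a ha
  obtain ⟨t, ht⟩ := Projectivization.exists_smul_eq_mk_rep F b hb
  rw [← hs, ← ht, Units.smul_def, Units.smul_def, smul_dotProduct, dotProduct_smul, smul_smul,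
    smul_eq_mul, mul_eq_zero]
  exact ⟨fun h => h.resolve_left (mul_ne_zero s.ne_zero t.ne_zero), Or.inr⟩

/-- the coordinate points but one are shattered -/
theorem pg_shat {D : ℕ} (e : Fin v ≃ ℙ F (Fin (D + 1) → F)) :
    ∃ Z, Shat (pg e) Z ∧ Z.card = D := by
  classical
  have hne : ∀ j : Fin (D + 1), (Pi.single j 1 : Fin (D + 1) → F) ≠ 0 := by
    intro j h
    have := congrFun h j
    rw [Pi.single_eq_same] at this
    exact one_ne_zero this
  set z : Fin D → Fin v := fun j => e.symm (Projectivization.mk F _ (hne j.castSucc)) with hz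
  have hinj : Function.Injective z := by
    intro j l hjl
    have h1 := e.symm.injective hjl
    rw [Projectivization.mk_eq_mk_iff'] at h1
    obtain ⟨a, ha⟩ := h1
    by_contra hcon
    have h2 := congrFun ha j.castSucc
    rw [Pi.smul_apply, Pi.single_eq_same, Pi.single_eq_of_ne (by
      intro h
      exact hcon (Fin.castSucc_injective _ h)), smul_zero] at h2
    exact zero_ne_one h2
  refine ⟨univ.image z, ?_, by rw [card_image_of_injective _ hinj, card_univ, Fintype.card_fin]⟩
  intro T hT
  set w : Fin (D + 1) → F :=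
    fun l => if e.symm (Projectivization.mk F _ (hne l)) ∈ T then 0 else 1 with hw
  have hwl : e.symm (Projectivization.mk F _ (hne (Fin.last D))) ∉ T := by
    intro h
    obtain ⟨j, -, hj⟩ := mem_image.1 (hT h)
    have h1 := e.symm.injective hj
    rw [Projectivization.mk_eq_mk_iff'] at h1
    obtain ⟨a, ha⟩ := h1
    have h2 := congrFun ha j.castSucc
    rw [Pi.smul_apply, Pi.single_eq_same, Pi.single_eq_of_ne (Fin.castSucc_lt_last j).ne,
      smul_zero] at h2
    exact zero_ne_one h2
  have hw0 : w ≠ 0 := by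
    intro h
    have := congrFun h (Fin.last D)
    rw [hw] at this
    simp only [hwl, if_false] at this
    exact one_ne_zero this
  refine ⟨e.symm (Projectivization.mk F w hw0), ?_⟩
  have key : ∀ j, z j ∈ pg e (e.symm (Projectivization.mk F w hw0)) ↔ z j ∈ T := by
    intro j
    rw [mem_pg, Equiv.apply_symm_apply, hz]
    simp only [Equiv.apply_symm_apply]
    rw [rep_dot, dotProduct_single, mul_one, hw]
    by_cases h : e.symm (Projectivization.mk F _ (hne j.castSucc)) ∈ T <;> simp [h]
  ext y
  rw [mem_inter]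
  constructor
  · rintro ⟨h1, h2⟩
    obtain ⟨j, -, rfl⟩ := mem_image.1 h1
    exact (key j).1 h2
  · intro h
    refine ⟨hT h, ?_⟩
    obtain ⟨j, -, rfl⟩ := mem_image.1 (hT h)
    exact (key j).2 h

end Design

/-- `PG(D, q)` as a symmetric design of VC dimension `D` -/
theorem exists_pg {D q : ℕ} (hD : 2 ≤ D) (hq : IsPrimePow q) :
    ∃ (v k lam : ℕ) (B : Fin v → Finset (Fin v)), IsSym v k lam B ∧ 1 ≤ lam ∧ 2 ≤ k ∧ 2 * k ≤ v ∧
      k - lam = q ^ (D - 1) ∧ v = ∑ i ∈ range (D + 1), q ^ i ∧ q ^ (D - 2) ≤ lam ∧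
      (∀ Z, Shat B Z → Z.card ≤ D) ∧ ∃ Z, Shat B Z ∧ Z.card = D := by
  obtain ⟨p, n, hp, hn, rfl⟩ := hq
  have : Fact p.Prime := ⟨Nat.prime_iff.2 hp⟩
  have hcard : Nat.card (GaloisField p n) = p ^ n := GaloisField.card p n hn.ne'
  have : Finite (GaloisField p n) := Nat.finite_of_card_ne_zero (by
    rw [hcard]; exact pow_ne_zero _ (Nat.Prime.ne_zero Fact.out))
  have hq2 : 2 ≤ p ^ n := by
    calc 2 ≤ p := (Fact.out : p.Prime).two_le
      _ = p ^ 1 := (pow_one p).symm
      _ ≤ p ^ n := Nat.pow_le_pow_right (Fact.out : p.Prime).pos hn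
  set q := p ^ n with hqdef
  have hc := Projectivization.card_of_finrank (GaloisField p n)
    (Fin (D + 1) → GaloisField p n) (n := D + 1) (by rw [Module.finrank_fin_fun])
  rw [hcard] at hc
  have : Finite (ℙ (GaloisField p n) (Fin (D + 1) → GaloisField p n)) :=
    Projectivization.finite_of_finite _ _
  obtain ⟨e⟩ : Nonempty (Fin (∑ i ∈ range (D + 1), q ^ i) ≃
      ℙ (GaloisField p n) (Fin (D + 1) → GaloisField p n)) := by
    rw [← hc]
    exact ⟨(Finite.equivFin _).symm⟩
  have hsym := pg_isSym e
  rw [hcard, Nat.add_sub_cancel] at hsym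
  have e1 : D + 1 - 2 = D - 1 := by omega
  rw [e1] at hsym
  obtain ⟨m, rfl⟩ : ∃ m, D = m + 2 := ⟨D - 2, by omega⟩
  have e2 : m + 2 - 1 = m + 1 := by omega
  rw [e2] at hsym ⊢
  refine ⟨_, _, _, pg e, hsym, ?_, ?_, ?_, ?_, rfl, ?_, ?_, ?_⟩
  · rw [sum_range_succ']
    simp
  · rw [sum_range_succ', sum_range_succ']
    simp only [pow_zero, zero_add, pow_one]
    omega
  · rw [sum_range_succ (fun i => q ^ i) (m + 2)]
    have h1 : ∀ j, ∑ i ∈ range (j + 1), q ^ i ≤ q ^ (j + 1) := by
      intro j
      induction j with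
      | zero => simp; omega
      | succ j ih =>
        rw [sum_range_succ, pow_succ q (j + 1)]
        have : q ^ (j + 1) * 2 ≤ q ^ (j + 1) * q := Nat.mul_le_mul_left _ hq2
        omega
    have h2 : ∑ i ∈ range (m + 2), q ^ i ≤ q ^ (m + 2) := h1 (m + 1)
    omega
  · rw [sum_range_succ, Nat.add_sub_cancel_left]
  · rw [sum_range_succ, Nat.add_sub_cancel]
    exact Nat.le_add_left _ _
  · intro Z hZ
    have := pg_shat_le e hZ
    omega
  · exact pg_shat e

end Q123.VC
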