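import Pool.Agent.Q123.VC.Bounds

set_option autoImplicit false

/-!
# Symmetric designs: small shattered sets
-/

open Finset

namespace Q123.VC

variable {v k lam : ℕ}

/-- the blocks through a point -/
def pen (B : Fin v → Finset (Fin v)) (x : Fin v) : Finset (Fin v) := univ.filter fun i => x ∈ B i

lemma mem_pen {B : Fin v → Finset (Fin v)} {x i : Fin v} : i ∈ pen B x ↔ x ∈ B i := by
  simp [pen]

lemma pen_inter {B : Fin v → Finset (Fin v)} (h : IsSym v k lam B) {x y : Fin v} (hxy : x ≠ y) :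
    (pen B x ∩ pen B y).card = lam := by
  rw [← h.2 x y hxy]
  congr 1
  ext i
  simp [mem_pen]

/-- the traces on a shattered set which contain two given points -/
lemma two_pow_le {B : Fin v → Finset (Fin v)} (h : IsSym v k lam B) {Z : Finset (Fin v)}
    (hZ : Shat B Z) (hZ2 : 2 ≤ Z.card) : 2 ^ Z.card ≤ 4 * lam := by
  obtain ⟨x, hx, y, hy, hxy⟩ := one_lt_card.1 (show 1 < Z.card by omega)
  have h1 : (((Z.erase x).erase y).powerset).card ≤ lam := by
    rw [← pen_inter h hxy]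
    have : Nonempty (Fin v) := ⟨x⟩
    choose! f hf using hZ
    refine card_le_card_of_injOn (fun T => f (insert x (insert y T))) ?_ ?_
    · intro T hT
      rw [mem_coe, mem_powerset] at hT
      have hsub : insert x (insert y T) ⊆ Z := by
        intro w hw
        rw [mem_insert, mem_insert] at hw
        rcases hw with rfl | rfl | hw
        · exact hx
        · exact hy
        · exact mem_of_mem_erase (mem_of_mem_erase (hT hw))
      have h2 := hf _ hsub
      rw [mem_coe, mem_inter, mem_pen, mem_pen]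
      constructor
      · have : x ∈ Z ∩ B (f (insert x (insert y T))) := by
          rw [h2]; simp
        exact (mem_inter.1 this).2
      · have : y ∈ Z ∩ B (f (insert x (insert y T))) := by
          rw [h2]; simp
        exact (mem_inter.1 this).2
    · intro T hT T' hT' hTT
      rw [mem_coe, mem_powerset] at hT hT'
      have hsub : ∀ U, U ⊆ (Z.erase x).erase y → insert x (insert y U) ⊆ Z := by
        intro U hU w hw
        rw [mem_insert, mem_insert] at hw
        rcases hw with rfl | rfl | hw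
        · exact hx
        · exact hy
        · exact mem_of_mem_erase (mem_of_mem_erase (hU hw))
      have h2 := hf _ (hsub T hT)
      have h3 := hf _ (hsub T' hT')
      simp only at hTT
      rw [hTT, h3] at h2
      have hrec : ∀ U, U ⊆ (Z.erase x).erase y → ((insert x (insert y U)).erase x).erase y = U := by
        intro U hU
        ext w
        simp only [mem_erase, mem_insert]
        constructor
        · rintro ⟨ha, hb, hc⟩
          tauto
        · intro hw
          have := hU hw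
          rw [mem_erase, mem_erase] at this
          tauto
      rw [← hrec T hT, ← hrec T' hT', h2]
  rw [card_powerset, card_erase_of_mem (mem_erase.2 ⟨hxy.symm, hy⟩), card_erase_of_mem hx] at h1
  obtain ⟨c, hc⟩ : ∃ c, Z.card = c + 2 := ⟨Z.card - 2, by omega⟩
  rw [hc] at h1 ⊢
  have : c + 2 - 1 - 1 = c := by omega
  rw [this] at h1
  calc 2 ^ (c + 2) = 4 * 2 ^ c := by ring
    _ ≤ 4 * lam := Nat.mul_le_mul_left _ h1

/-- arithmetic of the parameters -/
lemma params {B : Fin v → Finset (Fin v)} (h : IsSym v k lam B) (hk : 2 ≤ k) (hkv : 2 * k ≤ v) :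
    2 * lam ≤ k ∧ 3 * k ≤ v + 2 * lam := by
  have hf := fund h hk ⟨0, by omega⟩
  have hf' : (k : ℤ) + lam * (v - 1) = k * k := by
    have : ((k + lam * (v - 1) : ℕ) : ℤ) = ((k * k : ℕ) : ℤ) := by exact_mod_cast hf
    push_cast [Nat.cast_sub (show 1 ≤ v by omega)] at this
    linarith
  have hkZ : (2 : ℤ) ≤ k := by exact_mod_cast hk
  have hkvZ : (2 : ℤ) * k ≤ v := by exact_mod_cast hkv
  have hl0 : (0 : ℤ) ≤ lam := by positivity
  have hne : (v : ℤ) ≠ 2 * k := by
    intro hv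
    rw [hv] at hf'
    have h1 : (2 * (k : ℤ) - 1) * (2 * k - 1 - 4 * lam) = 1 := by linear_combination -4 * hf'
    rcases Int.eq_one_or_neg_one_of_mul_eq_one h1 with h2 | h2 <;> omega
  have hge : 2 * (k : ℤ) + 1 ≤ v := by omega
  have h1 : (2 : ℤ) * lam ≤ k := by
    by_contra hcon
    push Not at hcon
    nlinarith
  have h2 : (3 : ℤ) * k ≤ v + 2 * lam := by
    by_contra hcon
    push Not at hcon
    have h3 : ((v : ℤ) - 1) * (v + 2 * lam - 3 * k) = (v - k) * (v - 2 * k - 1) := by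
      linear_combination 2 * hf'
    have h4 : (0 : ℤ) ≤ (v - k) * (v - 2 * k - 1) := by
      apply mul_nonneg <;> linarith
    nlinarith
  constructor
  · exact_mod_cast h1
  · exact_mod_cast h2

lemma ex_pair {B : Fin v → Finset (Fin v)} (h : IsSym v k lam B) {x y z : Fin v} (hxy : x ≠ y)
    (ha : (pen B x ∩ pen B y ∩ pen B z).card < lam) : ∃ i, x ∈ B i ∧ y ∈ B i ∧ z ∉ B i := by
  have h1 : ((pen B x ∩ pen B y) \ (pen B x ∩ pen B y ∩ pen B z)).Nonempty := by
    rw [← card_pos, card_sdiff_of_subset inter_subset_left, pen_inter h hxy]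
    omega
  obtain ⟨i, hi⟩ := h1
  simp only [mem_sdiff, mem_inter, mem_pen] at hi
  exact ⟨i, hi.1.1, hi.1.2, fun hz => hi.2 ⟨hi.1, hz⟩⟩

lemma ex_single {B : Fin v → Finset (Fin v)} (h : IsSym v k lam B) (hk : 2 ≤ k)
    {x y z : Fin v} (hxy : x ≠ y) (hxz : x ≠ z) (hlk : 2 * lam ≤ k)
    (ha : 1 ≤ (pen B x ∩ pen B y ∩ pen B z).card) : ∃ i, x ∈ B i ∧ y ∉ B i ∧ z ∉ B i := by
  have hu : pen B x ∩ (pen B y ∪ pen B z) = (pen B x ∩ pen B y) ∪ (pen B x ∩ pen B z) :=
    inter_union_distrib_left _ _ _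
  have h2 := card_union_add_card_inter (pen B x ∩ pen B y) (pen B x ∩ pen B z)
  have h3 : (pen B x ∩ pen B y) ∩ (pen B x ∩ pen B z) = pen B x ∩ pen B y ∩ pen B z := by
    ext i; simp only [mem_inter]; tauto
  rw [h3, pen_inter h hxy, pen_inter h hxz, ← hu] at h2
  have h1 : (pen B x \ (pen B x ∩ (pen B y ∪ pen B z))).Nonempty := by
    rw [← card_pos, card_sdiff_of_subset inter_subset_left]
    have : (pen B x).card = k := rep_eq h hk x
    omega
  obtain ⟨i, hi⟩ := h1
  simp only [mem_sdiff, mem_inter, mem_union, mem_pen] at hi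
  exact ⟨i, hi.1, fun hy => hi.2 ⟨hi.1, Or.inl hy⟩, fun hz => hi.2 ⟨hi.1, Or.inr hz⟩⟩

lemma ex_none {B : Fin v → Finset (Fin v)} (h : IsSym v k lam B) (hk : 2 ≤ k)
    {x y z : Fin v} (hxy : x ≠ y) (hxz : x ≠ z) (hyz : y ≠ z) (hkv : 3 * k ≤ v + 2 * lam)
    (ha : (pen B x ∩ pen B y ∩ pen B z).card < lam) : ∃ i, x ∉ B i ∧ y ∉ B i ∧ z ∉ B i := by
  have hr : ∀ w, (pen B w).card = k := fun w => rep_eq h hk w
  have h1 := card_union_add_card_inter (pen B x ∪ pen B y) (pen B z)
  have h2 := card_union_add_card_inter (pen B x) (pen B y)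
  have h3 : (pen B x ∪ pen B y) ∩ pen B z = (pen B x ∩ pen B z) ∪ (pen B y ∩ pen B z) :=
    union_inter_distrib_right _ _ _
  have h4 := card_union_add_card_inter (pen B x ∩ pen B z) (pen B y ∩ pen B z)
  have h5 : (pen B x ∩ pen B z) ∩ (pen B y ∩ pen B z) = pen B x ∩ pen B y ∩ pen B z := by
    ext i; simp only [mem_inter]; tauto
  rw [h5, pen_inter h hxz, pen_inter h hyz, ← h3] at h4
  rw [pen_inter h hxy, hr, hr] at h2
  rw [hr] at h1
  have h6 : ((pen B x ∪ pen B y) ∪ pen B z)ᶜ.Nonempty := by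
    rw [← card_pos, card_compl, Fintype.card_fin]
    omega
  obtain ⟨i, hi⟩ := h6
  simp only [mem_compl, mem_union, mem_pen, not_or] at hi
  exact ⟨i, hi.1.1, hi.1.2, hi.2⟩

/-- a symmetric design with `λ ≥ 2` and `2k ≤ v` shatters a set of three points -/
theorem shat_three {B : Fin v → Finset (Fin v)} (h : IsSym v k lam B) (hk : 2 ≤ k)
    (hkv : 2 * k ≤ v) (hl : 2 ≤ lam) : ∃ Z, Shat B Z ∧ Z.card = 3 := by
  obtain ⟨p1, p2⟩ := params h hk hkv
  have hxy : (⟨0, by omega⟩ : Fin v) ≠ ⟨1, by omega⟩ := by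
    intro h
    exact absurd (congrArg Fin.val h) (by norm_num)
  set x : Fin v := ⟨0, by omega⟩
  set y : Fin v := ⟨1, by omega⟩
  obtain ⟨i, hi, j, hj, hij⟩ := one_lt_card.1 (show 1 < (pen B x ∩ pen B y).card by
    rw [pen_inter h hxy]; omega)
  rw [mem_inter, mem_pen, mem_pen] at hi hj
  obtain ⟨z, hz⟩ : (B i \ B j).Nonempty := by
    rw [← card_pos, card_sdiff, inter_comm, inter_card h hk hij, h.1 i]
    omega
  rw [mem_sdiff] at hz
  have hxz : x ≠ z := by
    intro h'
    exact hz.2 (h' ▸ hj.1)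
  have hyz : y ≠ z := by
    intro h'
    exact hz.2 (h' ▸ hj.2)
  have ha1 : 1 ≤ (pen B x ∩ pen B y ∩ pen B z).card := by
    rw [Nat.succ_le_iff, card_pos]
    exact ⟨i, by simp only [mem_inter, mem_pen]; exact ⟨hi, hz.1⟩⟩
  have ha2 : (pen B x ∩ pen B y ∩ pen B z).card < lam := by
    rw [← pen_inter h hxy]
    apply card_lt_card
    rw [ssubset_iff_of_subset inter_subset_left]
    exact ⟨j, by simp only [mem_inter, mem_pen]; exact hj,
      by simp only [mem_inter, mem_pen]; exact fun h' => hz.2 h'.2⟩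
  have c1 : pen B x ∩ pen B z ∩ pen B y = pen B x ∩ pen B y ∩ pen B z := by
    ext i; simp only [mem_inter]; tauto
  have c2 : pen B y ∩ pen B z ∩ pen B x = pen B x ∩ pen B y ∩ pen B z := by
    ext i; simp only [mem_inter]; tauto
  have c3 : pen B y ∩ pen B x ∩ pen B z = pen B x ∩ pen B y ∩ pen B z := by
    ext i; simp only [mem_inter]; tauto
  have c4 : pen B z ∩ pen B x ∩ pen B y = pen B x ∩ pen B y ∩ pen B z := by
    ext i; simp only [mem_inter]; tauto
  obtain ⟨i1, q1⟩ := ex_pair h hxy ha2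
  obtain ⟨i2, q2⟩ := ex_pair h hxz (c1.symm ▸ ha2)
  obtain ⟨i3, q3⟩ := ex_pair h hyz (c2.symm ▸ ha2)
  obtain ⟨i4, q4⟩ := ex_single h hk hxy hxz p1 ha1
  obtain ⟨i5, q5⟩ := ex_single h hk hxy.symm hyz p1 (c3.symm ▸ ha1)
  obtain ⟨i6, q6⟩ := ex_single h hk hxz.symm hyz.symm p1 (c4.symm ▸ ha1)
  obtain ⟨i7, q7⟩ := ex_none h hk hxy hxz hyz p2 ha2
  refine ⟨{x, y, z}, ?_, card_eq_three.2 ⟨x, y, z, hxy, hxz, hyz, rfl⟩⟩
  intro T hT
  have key : ∀ i, (x ∈ B i ↔ x ∈ T) → (y ∈ B i ↔ y ∈ T) → (z ∈ B i ↔ z ∈ T) →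
      ({x, y, z} : Finset (Fin v)) ∩ B i = T := by
    intro i h1 h2 h3
    ext w
    rw [mem_inter]
    constructor
    · rintro ⟨hw, hw'⟩
      rw [mem_insert, mem_insert, mem_singleton] at hw
      rcases hw with rfl | rfl | rfl
      · exact h1.1 hw'
      · exact h2.1 hw'
      · exact h3.1 hw'
    · intro hw
      refine ⟨hT hw, ?_⟩
      have hw' := hT hw
      rw [mem_insert, mem_insert, mem_singleton] at hw'
      rcases hw' with rfl | rfl | rfl
      · exact h1.2 hw
      · exact h2.2 hw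
      · exact h3.2 hw
  by_cases hx : x ∈ T <;> by_cases hy : y ∈ T <;> by_cases hz' : z ∈ T
  · exact ⟨i, key i (iff_of_true hi.1 hx) (iff_of_true hi.2 hy) (iff_of_true hz.1 hz')⟩
  · exact ⟨i1, key i1 (iff_of_true q1.1 hx) (iff_of_true q1.2.1 hy) (iff_of_false q1.2.2 hz')⟩
  · exact ⟨i2, key i2 (iff_of_true q2.1 hx) (iff_of_false q2.2.2 hy) (iff_of_true q2.2.1 hz')⟩
  · exact ⟨i4, key i4 (iff_of_true q4.1 hx) (iff_of_false q4.2.1 hy) (iff_of_false q4.2.2 hz')⟩
  · exact ⟨i3, key i3 (iff_of_false q3.2.2 hx) (iff_of_true q3.1 hy) (iff_of_true q3.2.1 hz')⟩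
  · exact ⟨i5, key i5 (iff_of_false q5.2.1 hx) (iff_of_true q5.1 hy) (iff_of_false q5.2.2 hz')⟩
  · exact ⟨i6, key i6 (iff_of_false q6.2.1 hx) (iff_of_false q6.2.2 hy) (iff_of_true q6.1 hz')⟩
  · exact ⟨i7, key i7 (iff_of_false q7.1 hx) (iff_of_false q7.2.1 hy) (iff_of_false q7.2.2 hz')⟩

/-- any two points are shattered -/
theorem shat_two {B : Fin v → Finset (Fin v)} (h : IsSym v k lam B) (hl : 1 ≤ lam) (hk : 2 ≤ k)
    (hkv : 2 * k ≤ v) : ∃ Z, Shat B Z ∧ Z.card = 2 := by
  have hlk := lam_le h hk (by omega)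
  have hxy : (⟨0, by omega⟩ : Fin v) ≠ ⟨1, by omega⟩ := by
    intro h
    exact absurd (congrArg Fin.val h) (by norm_num)
  set x : Fin v := ⟨0, by omega⟩
  set y : Fin v := ⟨1, by omega⟩
  have hr : ∀ w, (pen B w).card = k := fun w => rep_eq h hk w
  obtain ⟨i, hi⟩ : (pen B x ∩ pen B y).Nonempty := by
    rw [← card_pos, pen_inter h hxy]; omega
  obtain ⟨i1, q1⟩ : (pen B x \ pen B y).Nonempty := by
    rw [← card_pos, card_sdiff, inter_comm, pen_inter h hxy, hr]; omega
  obtain ⟨i2, q2⟩ : (pen B y \ pen B x).Nonempty := by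
    rw [← card_pos, card_sdiff, pen_inter h hxy, hr]; omega
  obtain ⟨i3, q3⟩ : (pen B x ∪ pen B y)ᶜ.Nonempty := by
    rw [← card_pos, card_compl, Fintype.card_fin]
    have := card_union_add_card_inter (pen B x) (pen B y)
    rw [pen_inter h hxy, hr, hr] at this
    omega
  simp only [mem_inter, mem_sdiff, mem_compl, mem_union, mem_pen, not_or] at hi q1 q2 q3
  refine ⟨{x, y}, ?_, card_pair hxy⟩
  intro T hT
  have key : ∀ i, (x ∈ B i ↔ x ∈ T) → (y ∈ B i ↔ y ∈ T) →
      ({x, y} : Finset (Fin v)) ∩ B i = T := by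
    intro i h1 h2
    ext w
    rw [mem_inter]
    constructor
    · rintro ⟨hw, hw'⟩
      rw [mem_insert, mem_singleton] at hw
      rcases hw with rfl | rfl
      · exact h1.1 hw'
      · exact h2.1 hw'
    · intro hw
      refine ⟨hT hw, ?_⟩
      have hw' := hT hw
      rw [mem_insert, mem_singleton] at hw'
      rcases hw' with rfl | rfl
      · exact h1.2 hw
      · exact h2.2 hw
  by_cases hx : x ∈ T <;> by_cases hy : y ∈ T
  · exact ⟨i, key i (iff_of_true hi.1 hx) (iff_of_true hi.2 hy)⟩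
  · exact ⟨i1, key i1 (iff_of_true q1.1 hx) (iff_of_false q1.2 hy)⟩
  · exact ⟨i2, key i2 (iff_of_false q2.2 hx) (iff_of_true q2.1 hy)⟩
  · exact ⟨i3, key i3 (iff_of_false q3.1 hx) (iff_of_false q3.2 hy)⟩

end Q123.VC
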